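import Pool.Agent.Helper63.Sey2.Goals
import Mathlib

/-!
# Project SEY2 (MP_b6b2d3_co), packet LINK: greedy choice of `R`
-/

set_option autoImplicit false

namespace Pool.Agent.Helper39.Sey2

open Pool.Agent.Helper63.Sey2

theorem step {V : Type} [Fintype V] [DecidableEq V] (H : SimpleGraph V) [DecidableRel H.Adj]
    (P Q : Finset V) (t d j : ℕ) (ht : 2 * t ≤ P.card) (hj : j + 1 ≤ t)
    (hQ : ∀ w ∈ Q, Nat.card {u // u ∈ P ∧ H.Adj w u} ≤ d) (R L : Finset V) (hRP : R ⊆ P)
    (hLQ : L ⊆ Q) (hR : R.card = j) :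
    ∃ u ∈ P \ R, P.card * (L.filter fun w => H.Adj u w).card ≤ 2 * (d * L.card) := by
  have hcard : (P \ R).card + R.card = P.card := Finset.card_sdiff_add_card_eq_card hRP
  have hsum : ∑ u ∈ P \ R, (L.filter fun w => H.Adj u w).card ≤ d * L.card := by
    have h1 : ∑ u ∈ P \ R, (L.filter fun w => H.Adj u w).card =
        ∑ w ∈ L, ((P \ R).filter fun u => H.Adj u w).card :=
      Finset.sum_card_bipartiteAbove_eq_sum_card_bipartiteBelow H.Adj
    rw [h1, mul_comm]
    refine (Finset.sum_le_card_nsmul L _ d fun w hw => ?_).trans (by rw [smul_eq_mul])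
    refine le_trans ?_ (hQ w (hLQ hw))
    rw [Nat.card_eq_fintype_card, Fintype.card_subtype]
    refine Finset.card_le_card fun u hu => ?_
    rw [Finset.mem_filter, Finset.mem_sdiff] at hu
    exact Finset.mem_filter.2 ⟨Finset.mem_univ _, hu.1.1, hu.2.symm⟩
  by_contra hno
  push Not at hno
  have h2 : (P \ R).card * (2 * (d * L.card) + 1) ≤
      P.card * ∑ u ∈ P \ R, (L.filter fun w => H.Adj u w).card := by
    rw [Finset.mul_sum, ← smul_eq_mul]
    exact Finset.card_nsmul_le_sum _ _ _ fun u hu => hno u hu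
  have h3 : (P \ R).card * (2 * (d * L.card) + 1) ≤ P.card * (d * L.card) :=
    h2.trans (Nat.mul_le_mul_left _ hsum)
  have h4 : P.card ≤ 2 * (P \ R).card := by omega
  have h5 : P.card * (d * L.card) ≤ 2 * (P \ R).card * (d * L.card) := Nat.mul_le_mul_right _ h4
  have h6 : 1 ≤ (P \ R).card := by omega
  nlinarith

theorem goalLINK : GoalLINK := by
  classical
  intro V _ H P Q t d ht hd hQ
  have key : ∀ j ≤ t, ∃ R L : Finset V, R ⊆ P ∧ L ⊆ Q ∧ R.card = j ∧
      (∀ u ∈ R, ∀ w ∈ L, ¬ H.Adj u w) ∧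
      (1 - 2 * (d : ℝ) / P.card) ^ j * Q.card ≤ L.card := by
    intro j
    induction j with
    | zero =>
      intro _
      exact ⟨∅, Q, Finset.empty_subset _, Finset.Subset.refl _, Finset.card_empty, by simp, by simp⟩
    | succ j ih =>
      intro hj
      obtain ⟨R, L, hRP, hLQ, hR, hRL, hL⟩ := ih (by omega)
      obtain ⟨u, hu, hN⟩ := step H P Q t d j ht hj hQ R L hRP hLQ hR
      rw [Finset.mem_sdiff] at hu
      have hx : (0 : ℝ) < P.card := by
        have : 0 < P.card := by omega
        exact_mod_cast this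
      refine ⟨insert u R, L.filter fun w => ¬ H.Adj u w, Finset.insert_subset hu.1 hRP,
        (Finset.filter_subset _ _).trans hLQ, by rw [Finset.card_insert_of_notMem hu.2, hR], ?_, ?_⟩
      · intro v hv w hw
        rw [Finset.mem_filter] at hw
        rcases Finset.mem_insert.1 hv with rfl | hv
        · exact hw.2
        · exact hRL v hv w hw.1
      · have h1 : ((L.filter fun w => H.Adj u w).card : ℝ) +
            ((L.filter fun w => ¬ H.Adj u w).card : ℝ) = L.card := by
          exact_mod_cast Finset.card_filter_add_card_filter_not (s := L) fun w => H.Adj u w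
        have h2 : (P.card : ℝ) * ((L.filter fun w => H.Adj u w).card : ℝ) ≤ 2 * (d * L.card) := by
          exact_mod_cast hN
        have h3 : ((L.filter fun w => H.Adj u w).card : ℝ) ≤ 2 * (d : ℝ) / P.card * L.card := by
          rw [div_mul_eq_mul_div, le_div_iff₀ hx]
          linarith
        have h4 : (0 : ℝ) ≤ 1 - 2 * (d : ℝ) / P.card := by
          rw [sub_nonneg, div_le_one hx]
          exact_mod_cast hd
        calc (1 - 2 * (d : ℝ) / P.card) ^ (j + 1) * Q.card
            = (1 - 2 * (d : ℝ) / P.card) * ((1 - 2 * (d : ℝ) / P.card) ^ j * Q.card) := by ring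
          _ ≤ (1 - 2 * (d : ℝ) / P.card) * L.card := mul_le_mul_of_nonneg_left hL h4
          _ ≤ _ := by linarith
  exact key t le_rfl

end Pool.Agent.Helper39.Sey2
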